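import Pool.Agent.Helper49.PA.GoalsA

/-! Packet P2. -/

namespace PA49.PkP2

open Combinatorics

/-- Ordering the parameters. -/
theorem ord {A : Type} {d n : ℕ} (S : Subspace (Fin d) A (Fin n)) :
    ∃ (σ : Equiv.Perm (Fin d)) (pos : Fin d → Fin n),
      Pos (S.reindex σ (Equiv.refl A) (Equiv.refl (Fin n))) pos := by
  classical
  have h1 : ∀ e, ∃ j, S.idxFun j = .inr e ∧ ∀ j', S.idxFun j' = .inr e → j ≤ j' := by
    intro e
    obtain ⟨j0, hj0⟩ := S.proper e
    have hne : (Finset.univ.filter fun j => S.idxFun j = .inr e).Nonempty :=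
      ⟨j0, by simp [hj0]⟩
    refine ⟨_, (Finset.mem_filter.mp (Finset.min'_mem _ hne)).2, fun j' hj' => ?_⟩
    exact Finset.min'_le _ _ (by simp [hj'])
  choose f hf hf' using h1
  have hinj : Function.Injective f := by
    intro a b hab
    have := hf a
    rw [hab, hf b] at this
    exact (Sum.inr.inj this).symm
  obtain ⟨τ, hτ⟩ : ∃ τ : Equiv.Perm (Fin d), StrictMono (f ∘ τ) :=
    ⟨Tuple.sort f, (Tuple.monotone_sort f).strictMono_of_injective
      (hinj.comp (Tuple.sort f).injective)⟩
  have hidx : ∀ j e, (S.reindex τ.symm (Equiv.refl A) (Equiv.refl (Fin n))).idxFun j = .inr e ↔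
      S.idxFun j = .inr (τ e) := by
    intro j e
    show (S.idxFun j).map (Equiv.refl A) τ.symm = .inr e ↔ _
    cases h : S.idxFun j with
    | inl a => simp
    | inr e0 =>
      simp only [Sum.map_inr, Sum.inr.injEq]
      constructor
      · rintro rfl; simp
      · intro h'; rw [h']; simp
  refine ⟨τ.symm, f ∘ τ, hτ, fun i => ?_, fun i j hj e he => ?_⟩
  · rw [hidx]
    exact hf (τ i)
  · rw [hidx] at he
    have h2 := hf' (τ e) j he
    exact hτ.lt_iff_lt.mp (lt_of_le_of_lt h2 hj)

/-- Composition of subspaces. -/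
def comp {A : Type} {M D n : ℕ} (V : Subspace (Fin D) A (Fin n))
    (S : Subspace (Fin M) A (Fin D)) : Subspace (Fin M) A (Fin n) where
  idxFun j := (V.idxFun j).elim .inl S.idxFun
  proper e := by
    obtain ⟨i, hi⟩ := S.proper e
    obtain ⟨j, hj⟩ := V.proper i
    exact ⟨j, by rw [hj]; exact hi⟩

theorem comp_apply {A : Type} {M D n : ℕ} (V : Subspace (Fin D) A (Fin n))
    (S : Subspace (Fin M) A (Fin D)) (x : Fin M → A) : comp V S x = V (S x) := by
  funext j
  simp only [Subspace.apply_def, comp]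
  cases V.idxFun j <;> rfl

theorem comp_pos {A : Type} {M D n : ℕ} {V : Subspace (Fin D) A (Fin n)}
    {S : Subspace (Fin M) A (Fin D)} {posV : Fin D → Fin n} {posS : Fin M → Fin D}
    (hV : Pos V posV) (hS : Pos S posS) : Pos (comp V S) (posV ∘ posS) := by
  obtain ⟨v1, v2, v3⟩ := hV
  obtain ⟨s1, s2, s3⟩ := hS
  refine ⟨v1.comp s1, fun i => ?_, fun i j hj e he => ?_⟩
  · show (V.idxFun (posV (posS i))).elim .inl S.idxFun = .inr i
    rw [v2]
    exact s2 i
  · have he' : (V.idxFun j).elim .inl S.idxFun = .inr e := he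
    cases h : V.idxFun j with
    | inl a =>
      rw [h] at he'
      simp at he'
    | inr q =>
      rw [h] at he'
      exact s3 i q (v3 (posS i) j hj q h) e he'

/-- Adding a last parameter. -/
def ext {A : Type} {M n : ℕ} (T : Subspace (Fin M) A (Fin n)) :
    Subspace (Fin (M + 1)) A (Fin (n + 1)) where
  idxFun := Fin.snoc (α := fun _ => A ⊕ Fin (M + 1)) (fun j => (T.idxFun j).map id Fin.castSucc)
    (.inr (Fin.last M))
  proper e := by
    refine Fin.lastCases ?_ (fun e => ?_) e
    · exact ⟨Fin.last n, by simp⟩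
    · obtain ⟨j, hj⟩ := T.proper e
      exact ⟨Fin.castSucc j, by simp [hj]⟩

theorem ext_castSucc {A : Type} {M n : ℕ} (T : Subspace (Fin M) A (Fin n)) (j : Fin n) :
    (ext T).idxFun (Fin.castSucc j) = (T.idxFun j).map id Fin.castSucc := by
  simp [ext]

theorem ext_last {A : Type} {M n : ℕ} (T : Subspace (Fin M) A (Fin n)) :
    (ext T).idxFun (Fin.last n) = .inr (Fin.last M) := by
  simp [ext]

theorem ext_apply_castSucc {A : Type} {M n : ℕ} (T : Subspace (Fin M) A (Fin n))
    (x : Fin (M + 1) → A) (j : Fin n) :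
    ext T x (Fin.castSucc j) = T (x ∘ Fin.castSucc) j := by
  rw [Subspace.apply_def, Subspace.apply_def, ext_castSucc]
  cases T.idxFun j <;> rfl

theorem ext_pos {A : Type} {M n : ℕ} {T : Subspace (Fin M) A (Fin n)} {pos : Fin M → Fin n}
    (h : Pos T pos) : Pos (ext T) (Fin.snoc (α := fun _ => Fin (n + 1))
      (fun i => Fin.castSucc (pos i)) (Fin.last n)) := by
  obtain ⟨h1, h2, h3⟩ := h
  refine ⟨?_, ?_, ?_⟩
  · intro a b
    refine Fin.lastCases ?_ (fun a => ?_) a
    · intro hab
      exact absurd hab (not_lt.mpr (Fin.le_last b))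
    · refine Fin.lastCases ?_ (fun b => ?_) b
      · intro _
        simp only [Fin.snoc_castSucc, Fin.snoc_last]
        exact Fin.castSucc_lt_last _
      · intro hab
        simp only [Fin.snoc_castSucc]
        exact Fin.castSucc_lt_castSucc_iff.mpr (h1 (Fin.castSucc_lt_castSucc_iff.mp hab))
  · intro i
    refine Fin.lastCases ?_ (fun i => ?_) i
    · simp only [Fin.snoc_last]
      exact ext_last T
    · simp only [Fin.snoc_castSucc]
      rw [ext_castSucc, h2]
      rfl
  · intro i j
    refine Fin.lastCases ?_ (fun i => ?_) i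
    · intro hj e he
      simp only [Fin.snoc_last] at hj
      obtain ⟨j', rfl⟩ := Fin.eq_castSucc_of_ne_last hj.ne
      rw [ext_castSucc] at he
      cases h : T.idxFun j' with
      | inl a => rw [h] at he; simp at he
      | inr q =>
        rw [h] at he
        simp only [Sum.map_inr, Sum.inr.injEq] at he
        rw [← he]
        exact Fin.castSucc_lt_last _
    · intro hj e he
      simp only [Fin.snoc_castSucc] at hj
      have hj' : j ≠ Fin.last n := (lt_of_lt_of_le hj (Fin.le_last _)).ne
      obtain ⟨j', rfl⟩ := Fin.eq_castSucc_of_ne_last hj'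
      rw [ext_castSucc] at he
      cases h : T.idxFun j' with
      | inl a => rw [h] at he; simp at he
      | inr q =>
        rw [h] at he
        simp only [Sum.map_inr, Sum.inr.injEq] at he
        rw [← he]
        exact Fin.castSucc_lt_castSucc_iff.mpr
          (h3 i j' (Fin.castSucc_lt_castSucc_iff.mp hj) q h)

theorem p2 : G_P2 := by
  intro A κ _ _ _ M
  induction M with
  | zero =>
    refine ⟨0, fun c _ => ⟨⟨fun j => j.elim0, fun e => e.elim0⟩, fun i => i.elim0,
      fun i => i.elim0, ⟨fun a => a.elim0, fun a => a.elim0, fun a => a.elim0⟩,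
      fun a => a.elim0⟩⟩
  | succ M ih =>
    obtain ⟨D, hD⟩ := ih
    obtain ⟨n, hn⟩ := Combinatorics.Subspace.exists_mono_in_high_dimension_fin A κ (Fin D)
    obtain ⟨a0⟩ : Nonempty A := inferInstance
    refine ⟨n + 1, fun c hc => ?_⟩
    obtain ⟨V0, k, hV0⟩ := hn fun u => c (Fin.last n) (Fin.snoc (α := fun _ => A) u a0)
    obtain ⟨σ, posV, hpos⟩ := ord V0
    obtain ⟨V, hV⟩ : ∃ V, V = V0.reindex σ (Equiv.refl A) (Equiv.refl (Fin n)) := ⟨_, rfl⟩
    rw [← hV] at hpos
    have hVk : ∀ x, c (Fin.last n) (Fin.snoc (α := fun _ => A) (V x) a0) = k := by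
      intro x
      have : V x = V0 (x ∘ σ) := by
        funext j
        rw [hV, Subspace.reindex_apply]
        rfl
      rw [this]
      exact hV0 _
    have hVx : ∀ (p : Fin D) (u u' : Fin D → A), (∀ j, j < p → u j = u' j) →
        ∀ j, j < posV p → V u j = V u' j := by
      intro p u u' hu j hj
      cases h : V.idxFun j with
      | inl a => rw [Subspace.apply_inl h, Subspace.apply_inl h]
      | inr e =>
        rw [Subspace.apply_inr h, Subspace.apply_inr h]
        exact hu e (hpos.2.2 p j hj e h)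
    obtain ⟨S', pos', χ', hS', hχ'⟩ := hD
      (fun p u => c (Fin.castSucc (posV p)) (Fin.snoc (α := fun _ => A) (V u) a0)) (by
        intro p u u' hu
        apply hc
        intro j hj
        have hj' : j ≠ Fin.last n := (lt_of_lt_of_le hj (Fin.le_last _)).ne
        obtain ⟨j', rfl⟩ := Fin.eq_castSucc_of_ne_last hj'
        rw [Fin.snoc_castSucc, Fin.snoc_castSucc]
        exact hVx p u u' hu j' (Fin.castSucc_lt_castSucc_iff.mp hj))
    refine ⟨ext (comp V S'), _, Fin.snoc (α := fun _ => κ) χ' k, ext_pos (comp_pos hpos hS'), ?_⟩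
    intro i x
    have hkey : ∀ q : Fin (n + 1), c q (ext (comp V S') x) = c q
        (Fin.snoc (α := fun _ => A) (V (S' (x ∘ Fin.castSucc))) a0) := by
      intro q
      apply hc
      intro j hj
      have hj' : j ≠ Fin.last n := (lt_of_lt_of_le hj (Fin.le_last _)).ne
      obtain ⟨j', rfl⟩ := Fin.eq_castSucc_of_ne_last hj'
      rw [Fin.snoc_castSucc, ext_apply_castSucc, comp_apply]
    rw [hkey]
    refine Fin.lastCases ?_ (fun i => ?_) i
    · simp only [Fin.snoc_last]
      exact hVk _
    · simp only [Fin.snoc_castSucc]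
      exact hχ' i (x ∘ Fin.castSucc)

end PA49.PkP2
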